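import Mathlib

set_option autoImplicit false

namespace Pool.Agent.Lib.MP_16c009_co_lam2

open Finset

/-- Pairs of nonnegative nondecreasing test functions whose quotient `G₁ / G₂` is
nondecreasing. -/
def TP (G₁ G₂ : ℕ → ℝ) : Prop :=
  (∀ n, 0 ≤ G₁ n) ∧ (∀ n, 0 ≤ G₂ n) ∧ (Monotone G₁ ∧ Monotone G₂) ∧
    ∀ m n, m ≤ n → G₁ m * G₂ n ≤ G₁ n * G₂ m

/-- Finite nonnegative combinations of point evaluations. -/
def Rep (Φ : (ℕ → ℝ) → ℝ) : Prop :=
  ∃ (N : ℕ) (H : ℕ → ℝ), (∀ k, 0 ≤ H k) ∧ ∀ φ, Φ φ = ∑ k ∈ range N, H k * φ k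

/-- A functional which is below all its shifts (increasing hazard rate). -/
def Good (Φ : (ℕ → ℝ) → ℝ) : Prop :=
  ∀ G₁ G₂, TP G₁ G₂ → ∀ d : ℕ,
    Φ G₁ * Φ (fun n => G₂ (n + d)) ≤ Φ (fun n => G₁ (n + d)) * Φ G₂

/-- The hazard rate order of two functionals. -/
def Ord (Q P : (ℕ → ℝ) → ℝ) : Prop :=
  ∀ G₁ G₂, TP G₁ G₂ → Q G₁ * P G₂ ≤ P G₁ * Q G₂

/-- Nonnegative, nondecreasing, log-concave weights. -/
def Wt (W : ℕ → ℝ) : Prop := ∀ d : ℕ, TP W (fun n => W (n + d))

theorem Rep.nonneg {Φ : (ℕ → ℝ) → ℝ} (h : Rep Φ) {φ : ℕ → ℝ} (hφ : ∀ n, 0 ≤ φ n) : 0 ≤ Φ φ := by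
  obtain ⟨N, H, hH, hΦ⟩ := h
  rw [hΦ]
  exact sum_nonneg fun k _ => mul_nonneg (hH k) (hφ k)

theorem Rep.mono {Φ : (ℕ → ℝ) → ℝ} (h : Rep Φ) {φ ψ : ℕ → ℝ} (hφ : ∀ n, φ n ≤ ψ n) :
    Φ φ ≤ Φ ψ := by
  obtain ⟨N, H, hH, hΦ⟩ := h
  rw [hΦ, hΦ]
  exact sum_le_sum fun k _ => mul_le_mul_of_nonneg_left (hφ k) (hH k)

theorem TP.shift {G₁ G₂ : ℕ → ℝ} (h : TP G₁ G₂) (m : ℕ) :
    TP (fun k => G₁ (m + k)) (fun k => G₂ (m + k)) := by
  refine ⟨fun n => h.1 _, fun n => h.2.1 _, ⟨?_, ?_⟩, ?_⟩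
  · intro a b hab
    exact h.2.2.1.1 (by omega)
  · intro a b hab
    exact h.2.2.1.2 (by omega)
  · intro a b hab
    exact h.2.2.2 _ _ (by omega)

theorem TP.conv {G₁ G₂ : ℕ → ℝ} (h : TP G₁ G₂) {Φ : (ℕ → ℝ) → ℝ} (hR : Rep Φ)
    (hG : Good Φ) :
    TP (fun m => Φ (fun k => G₁ (m + k))) (fun m => Φ (fun k => G₂ (m + k))) := by
  refine ⟨fun n => hR.nonneg fun k => h.1 _, fun n => hR.nonneg fun k => h.2.1 _,
    ⟨?_, ?_⟩, ?_⟩
  · intro a b hab
    exact hR.mono fun k => h.2.2.1.1 (by omega)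
  · intro a b hab
    exact hR.mono fun k => h.2.2.1.2 (by omega)
  · intro m n hmn
    have := hG _ _ (h.shift m) (n - m)
    have e1 : (fun k => G₂ (m + (k + (n - m)))) = fun k => G₂ (n + k) := by
      funext k
      congr 1
      omega
    have e2 : (fun k => G₁ (m + (k + (n - m)))) = fun k => G₁ (n + k) := by
      funext k
      congr 1
      omega
    simp only [e1, e2] at this
    exact this

theorem Wt.conv {W : ℕ → ℝ} (h : Wt W) {Φ : (ℕ → ℝ) → ℝ} (hR : Rep Φ)
    (hG : Good Φ) : Wt (fun m => Φ (fun k => W (m + k))) := by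
  intro d
  have := (h d).conv hR hG
  have e : (fun m => Φ (fun k => W (m + k + d))) = fun m => Φ (fun k => W (m + d + k)) := by
    funext m
    congr 1
    funext k
    congr 1
    omega
  rw [e] at this
  exact this

/-- The basic bilinear inequality. -/
theorem bil (N : ℕ) (P Q G₁ G₂ : ℕ → ℝ)
    (h : ∀ j, 0 ≤ ∑ k ∈ Ico (j + 1) N, (Q j * P k - P j * Q k) * (G₂ j * G₁ k - G₁ j * G₂ k)) :
    (∑ k ∈ range N, Q k * G₁ k) * (∑ k ∈ range N, P k * G₂ k) ≤
      (∑ k ∈ range N, P k * G₁ k) * (∑ k ∈ range N, Q k * G₂ k) := by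
  have key : ∀ t j : ℕ, j + t = N →
      (∑ k ∈ Ico j N, Q k * G₁ k) * (∑ k ∈ Ico j N, P k * G₂ k) ≤
        (∑ k ∈ Ico j N, P k * G₁ k) * (∑ k ∈ Ico j N, Q k * G₂ k) := by
    intro t
    induction t with
    | zero =>
      intro j hj
      have : j = N := by omega
      subst this
      simp
    | succ t ih =>
      intro j hj
      have hjN : j < N := by omega
      have ih' := ih (j + 1) (by omega)
      have hj' := h j
      have e : ∑ k ∈ Ico (j + 1) N, (Q j * P k - P j * Q k) * (G₂ j * G₁ k - G₁ j * G₂ k) =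
          Q j * G₂ j * (∑ k ∈ Ico (j + 1) N, P k * G₁ k)
          - Q j * G₁ j * (∑ k ∈ Ico (j + 1) N, P k * G₂ k)
          - P j * G₂ j * (∑ k ∈ Ico (j + 1) N, Q k * G₁ k)
          + P j * G₁ j * (∑ k ∈ Ico (j + 1) N, Q k * G₂ k) := by
        simp only [mul_sum, ← sum_sub_distrib, ← sum_add_distrib]
        refine sum_congr rfl fun k _ => ?_
        ring
      rw [e] at hj'
      rw [sum_eq_sum_Ico_succ_bot hjN, sum_eq_sum_Ico_succ_bot hjN,
        sum_eq_sum_Ico_succ_bot hjN, sum_eq_sum_Ico_succ_bot hjN]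
      nlinarith [ih', hj']
  have := key N 0 (by omega)
  rw [Finset.range_eq_Ico]
  exact this

/-- Abel summation bound. -/
theorem abel_nonneg (N : ℕ) (c ψ : ℕ → ℝ) (a : ℕ) (hψ : 0 ≤ ψ a)
    (hmono : ∀ k, a ≤ k → ψ k ≤ ψ (k + 1))
    (hc : ∀ i, a ≤ i → 0 ≤ ∑ k ∈ Ico i N, c k) : 0 ≤ ∑ k ∈ Ico a N, c k * ψ k := by
  have key : ∀ t j : ℕ, a ≤ j → j + t = N →
      ψ j * (∑ k ∈ Ico j N, c k) ≤ ∑ k ∈ Ico j N, c k * ψ k := by
    intro t
    induction t with
    | zero =>
      intro j _ hj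
      have : j = N := by omega
      subst this
      simp
    | succ t ih =>
      intro j haj hj
      have hjN : j < N := by omega
      have ih' := ih (j + 1) (by omega) (by omega)
      rw [sum_eq_sum_Ico_succ_bot hjN, sum_eq_sum_Ico_succ_bot hjN]
      have h1 := hmono j haj
      have h2 := hc (j + 1) (by omega)
      nlinarith [mul_le_mul_of_nonneg_right h1 h2]
  by_cases haN : a ≤ N
  · have := key (N - a) a le_rfl (by omega)
    exact le_trans (mul_nonneg hψ (hc a le_rfl)) this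
  · rw [Finset.Ico_eq_empty (by omega)]
    simp


/-- Summation by parts. -/
theorem parts (N : ℕ) (S φ : ℕ → ℝ) :
    ∑ k ∈ range N, (S k - S (k + 1)) * φ k =
      S 0 * φ 0 + ∑ k ∈ range N, S (k + 1) * (φ (k + 1) - φ k) - S N * φ N := by
  induction N with
  | zero => simp
  | succ N ih =>
    rw [sum_range_succ, ih, sum_range_succ]
    ring

theorem tele (N : ℕ) (S : ℕ → ℝ) (i : ℕ) (hi : i ≤ N) :
    ∑ k ∈ Ico i N, (S k - S (k + 1)) = S i - S N := by
  induction N, hi using Nat.le_induction with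
  | base => simp
  | succ n hn ih =>
    rw [sum_Ico_succ_top hn, ih]
    ring

/-- Tail form: log-concave tails give a good functional. -/
theorem good_of_ifr (N : ℕ) (S : ℕ → ℝ) (h0 : ∀ k, 0 ≤ S k)
    (hanti : ∀ k, S (k + 1) ≤ S k) (hN : ∀ k, N ≤ k → S k = 0)
    (hpf : ∀ a b d, a ≤ b → S b * S (a - d) ≤ S (b - d) * S a) (Φ : (ℕ → ℝ) → ℝ)
    (hΦ : ∀ φ, Φ φ = ∑ k ∈ range N, (S k - S (k + 1)) * φ k) : Good Φ := by
  intro G₁ G₂ hG d
  set Q : ℕ → ℝ := fun k => S k - S (k + 1) with hQ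
  set P : ℕ → ℝ := fun k => S (k - d) - S (k + 1 - d) with hP
  have e1 : ∀ φ : ℕ → ℝ, Φ φ = ∑ k ∈ range (d + N), Q k * φ k := by
    intro φ
    rw [hΦ]
    refine sum_subset (range_mono (by omega)) ?_
    intro k _ hk
    rw [mem_range, not_lt] at hk
    rw [hN k hk, hN (k + 1) (by omega)]
    ring
  have e2 : ∀ φ : ℕ → ℝ, Φ (fun n => φ (n + d)) = ∑ k ∈ range (d + N), P k * φ k := by
    intro φ
    rw [hΦ, sum_range_add]
    have : ∑ k ∈ range d, P k * φ k = 0 := by
      refine sum_eq_zero fun k hk => ?_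
      rw [mem_range] at hk
      have h1 : k - d = 0 := by omega
      have h2 : k + 1 - d = 0 := by omega
      simp only [hP, h1, h2]
      ring
    rw [this, zero_add]
    refine sum_congr rfl fun k _ => ?_
    have h1 : d + k - d = k := by omega
    have h2 : d + k + 1 - d = k + 1 := by omega
    simp only [hP, h1, h2]
    rw [add_comm d k]
  rw [e1 G₁, e1 G₂, e2 G₁, e2 G₂]
  obtain ⟨hG1, hG2, hGm, hGc⟩ := hG
  obtain ⟨hm1, hm2⟩ := hGm
  refine bil _ P Q G₁ G₂ fun j => ?_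
  refine abel_nonneg (d + N) (fun k => Q j * P k - P j * Q k)
    (fun k => G₂ j * G₁ k - G₁ j * G₂ k) (j + 1) ?_ ?_ ?_
  · have := hGc j (j + 1) (by omega)
    linarith
  · intro k hk
    have a1 := hGc k (k + 1) (by omega)
    have a2 := hGc j k (by omega)
    have a3 := hm2 (show k ≤ k + 1 by omega)
    have a4 := hm1 (show k ≤ k + 1 by omega)
    rcases (hG2 k).lt_or_eq with hpos | hz
    · have hjn := hG2 j
      have : 0 ≤ G₂ k * ((G₂ j * G₁ (k + 1) - G₁ j * G₂ (k + 1)) - (G₂ j * G₁ k - G₁ j * G₂ k)) := by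
        have b1 : G₂ j * (G₁ k * G₂ (k + 1)) ≤ G₂ j * (G₁ (k + 1) * G₂ k) :=
          mul_le_mul_of_nonneg_left a1 hjn
        have b2 : (G₁ j * G₂ k) * (G₂ (k + 1) - G₂ k) ≤ (G₁ k * G₂ j) * (G₂ (k + 1) - G₂ k) :=
          mul_le_mul_of_nonneg_right a2 (by linarith)
        nlinarith [b1, b2]
      have := nonneg_of_mul_nonneg_right this hpos
      linarith
    · have hj0 : G₂ j = 0 := by
        have := hm2 (show j ≤ k by omega)
        have := hG2 j
        linarith
      have b := hGc j (k + 1) (by omega)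
      rw [hj0, mul_zero] at b
      rw [hj0, ← hz]
      linarith
  · intro i hi
    have t1 : ∑ k ∈ Ico i (d + N), (Q j * P k - P j * Q k) = Q j * S (i - d) - P j * S i := by
      rw [sum_sub_distrib, ← mul_sum, ← mul_sum]
      by_cases hiN : i ≤ d + N
      · have u1 : ∑ k ∈ Ico i (d + N), P k = S (i - d) - S (d + N - d) := by
          have := tele (d + N) (fun k => S (k - d)) i hiN
          exact this
        have u2 : ∑ k ∈ Ico i (d + N), Q k = S i - S (d + N) := tele (d + N) S i hiN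
        rw [u1, u2, hN (d + N - d) (by omega), hN (d + N) (by omega)]
        ring
      · rw [Ico_eq_empty (by omega), sum_empty, sum_empty, hN i (by omega), hN (i - d) (by omega)]
    rw [t1]
    simp only [hQ, hP]
    have c1 := hpf j (j + 1) d (by omega)
    have c2 := hpf (j + 1) i d (by omega)
    have c3 := hanti j
    have hSi : S i ≤ S (j + 1) := by
      have : Antitone S := antitone_nat_of_succ_le hanti
      exact this hi
    rcases (h0 (j + 1)).lt_or_eq with hpos | hz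
    · have : 0 ≤ S (j + 1) * ((S j - S (j + 1)) * S (i - d) - (S (j - d) - S (j + 1 - d)) * S i) := by
        have d1 : S i * (S (j + 1) * S (j - d)) ≤ S i * (S (j + 1 - d) * S j) :=
          mul_le_mul_of_nonneg_left c1 (h0 i)
        have d2 : (S i * S (j + 1 - d)) * (S j - S (j + 1)) ≤
            (S (i - d) * S (j + 1)) * (S j - S (j + 1)) :=
          mul_le_mul_of_nonneg_right c2 (by linarith)
        nlinarith [d1, d2]
      exact nonneg_of_mul_nonneg_right this hpos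
    · have hi0 : S i = 0 := le_antisymm (by linarith) (h0 i)
      rw [hi0, ← hz]
      have := mul_nonneg (h0 j) (h0 (i - d))
      linarith

/-- The tail data of a good functional. -/
theorem tails {Φ : (ℕ → ℝ) → ℝ} (hR : Rep Φ) (hG : Good Φ) :
    ∃ (N : ℕ) (S : ℕ → ℝ), (∀ k, 0 ≤ S k) ∧ (∀ k, S (k + 1) ≤ S k) ∧ (∀ k, N ≤ k → S k = 0) ∧
      (∀ a b d, a ≤ b → S b * S (a - d) ≤ S (b - d) * S a) ∧
      ∀ φ, Φ φ = ∑ k ∈ range N, (S k - S (k + 1)) * φ k := by
  obtain ⟨N, H, hH, hΦ⟩ := hR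
  set S : ℕ → ℝ := fun m => Φ (fun n => if m ≤ n then 1 else 0) with hS
  have hSf : ∀ m, S m = ∑ k ∈ range N, (if m ≤ k then H k else 0) := by
    intro m
    simp only [hS, hΦ, mul_ite, mul_one, mul_zero]
  have hS0 : ∀ m, 0 ≤ S m := by
    intro m
    rw [hSf]
    refine sum_nonneg fun k _ => ?_
    split_ifs
    · exact hH k
    · exact le_rfl
  have hanti : ∀ m, S (m + 1) ≤ S m := by
    intro m
    rw [hSf, hSf]
    refine sum_le_sum fun k _ => ?_
    have := hH k
    split_ifs <;> first | omega | linarith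
  have hSN : ∀ m, N ≤ m → S m = 0 := by
    intro m hm
    rw [hSf]
    refine sum_eq_zero fun k hk => ?_
    rw [mem_range] at hk
    rw [if_neg (by omega)]
  have hdiff : ∀ k, k < N → S k - S (k + 1) = H k := by
    intro k hk
    rw [hSf, hSf, ← sum_sub_distrib]
    rw [sum_eq_single k]
    · rw [if_pos le_rfl, if_neg (by omega)]
      ring
    · intro j _ hj
      by_cases h1 : k ≤ j
      · rw [if_pos h1, if_pos (by omega)]
        ring
      · rw [if_neg h1, if_neg (by omega)]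
        ring
    · intro h
      exact absurd (mem_range.mpr hk) h
  refine ⟨N, S, hS0, hanti, hSN, ?_, ?_⟩
  · intro a b d hab
    have hT : TP (fun n => if b ≤ n then (1 : ℝ) else 0)
        (fun n => if a ≤ n then (1 : ℝ) else 0) := by
      refine ⟨?_, ?_, ⟨?_, ?_⟩, ?_⟩
      · intro n
        dsimp only
        split_ifs <;> norm_num
      · intro n
        dsimp only
        split_ifs <;> norm_num
      · intro m n hmn
        dsimp only
        split_ifs <;> first | omega | norm_num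
      · intro m n hmn
        dsimp only
        split_ifs <;> first | omega | norm_num
      · intro m n hmn
        dsimp only
        split_ifs <;> first | omega | norm_num
    have := hG _ _ hT d
    have e1 : (fun n => if a ≤ n + d then (1 : ℝ) else 0) = fun n => if a - d ≤ n then 1 else 0 := by
      funext n
      simp only [tsub_le_iff_right]
    have e2 : (fun n => if b ≤ n + d then (1 : ℝ) else 0) = fun n => if b - d ≤ n then 1 else 0 := by
      funext n
      simp only [tsub_le_iff_right]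
    simp only [e1, e2] at this
    exact this
  · intro φ
    rw [hΦ]
    refine sum_congr rfl fun k hk => ?_
    rw [mem_range] at hk
    rw [hdiff k hk]

/-- Truncation from above, `n ↦ min n c`. -/
theorem good_min {Φ : (ℕ → ℝ) → ℝ} (hR : Rep Φ) (hG : Good Φ) (c : ℕ) :
    Good (fun φ => Φ (fun n => φ (min n c))) := by
  obtain ⟨N, S, hS0, hanti, hSN, hpf, hΦ⟩ := tails hR hG
  set T : ℕ → ℝ := fun m => if m ≤ c then S m else 0 with hT
  have hT0 : ∀ m, 0 ≤ T m := by
    intro m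
    simp only [hT]
    split_ifs
    · exact hS0 m
    · exact le_rfl
  refine good_of_ifr N T hT0 ?_ ?_ ?_ _ ?_
  · intro k
    simp only [hT]
    have h1 := hanti k
    have h2 := hS0 k
    split_ifs <;> first | omega | linarith
  · intro k hk
    simp only [hT, hSN k hk, ite_self]
  · intro a b d hab
    by_cases hb : b ≤ c
    · simp only [hT]
      rw [if_pos hb, if_pos (by omega : a - d ≤ c), if_pos (by omega : b - d ≤ c),
        if_pos (by omega : a ≤ c)]
      exact hpf a b d hab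
    · have : T b = 0 := by
        simp only [hT]
        rw [if_neg hb]
      rw [this, zero_mul]
      exact mul_nonneg (hT0 _) (hT0 _)
  · intro φ
    have hTN : T N = 0 := by
      simp only [hT, hSN N le_rfl, ite_self]
    rw [parts, hTN, hΦ, parts, hSN N le_rfl, zero_mul, zero_mul, sub_zero, sub_zero]
    have t0 : T 0 = S 0 := by simp [hT]
    have t1 : ∑ k ∈ range N, S (k + 1) * (φ (min (k + 1) c) - φ (min k c)) =
        ∑ k ∈ range N, T (k + 1) * (φ (k + 1) - φ k) := by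
      refine sum_congr rfl fun k _ => ?_
      simp only [hT]
      by_cases hk : k + 1 ≤ c
      · rw [if_pos hk, min_eq_left hk, min_eq_left (by omega)]
      · rw [if_neg hk, min_eq_right (by omega : c ≤ k + 1), min_eq_right (by omega : c ≤ k)]
        ring
    rw [t0, t1, Nat.zero_min]

/-- Restriction to the levels `≥ c`. -/
theorem good_kill {Φ : (ℕ → ℝ) → ℝ} (hR : Rep Φ) (hG : Good Φ) (c : ℕ) :
    Good (fun φ => Φ (fun n => if c ≤ n then φ n else 0)) := by
  obtain ⟨N, S, hS0, hanti, hSN, hpf, hΦ⟩ := tails hR hG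
  have hA : Antitone S := antitone_nat_of_succ_le hanti
  refine good_of_ifr N (fun m => S (max m c)) (fun k => hS0 _) ?_ ?_ ?_ _ ?_
  · intro k
    exact hA (by omega)
  · intro k hk
    exact hSN _ (by omega)
  · intro a b d hab
    have h1 := hpf (max a c) (max b c) (max a c - max (a - d) c) (by omega)
    have e1 : max a c - (max a c - max (a - d) c) = max (a - d) c := by omega
    rw [e1] at h1
    refine le_trans h1 ?_
    exact mul_le_mul_of_nonneg_right (hA (by omega)) (hS0 _)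
  · intro φ
    rw [hΦ]
    refine sum_congr rfl fun k _ => ?_
    by_cases hk : c ≤ k
    · rw [if_pos hk, max_eq_left hk, max_eq_left (by omega : c ≤ k + 1)]
    · rw [if_neg hk, max_eq_right (by omega : k ≤ c), max_eq_right (by omega : k + 1 ≤ c)]
      ring

theorem Rep.comp {Φ₁ Φ₂ : (ℕ → ℝ) → ℝ} (h₁ : Rep Φ₁) (h₂ : Rep Φ₂) :
    Rep (fun φ => Φ₁ (fun m => Φ₂ (fun k => φ (m + k)))) := by
  obtain ⟨N₁, H₁, h01, e1⟩ := h₁
  obtain ⟨N₂, H₂, h02, e2⟩ := h₂
  refine ⟨N₁ + N₂, fun n => ∑ m ∈ range N₁, ∑ k ∈ range N₂,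
    (if m + k = n then H₁ m * H₂ k else 0), ?_, ?_⟩
  · intro n
    refine sum_nonneg fun m _ => sum_nonneg fun k _ => ?_
    split_ifs
    · exact mul_nonneg (h01 m) (h02 k)
    · exact le_rfl
  · intro φ
    simp only [e1, e2]
    have : ∀ n ∈ range (N₁ + N₂), (∑ m ∈ range N₁, ∑ k ∈ range N₂,
        (if m + k = n then H₁ m * H₂ k else 0)) * φ n = ∑ m ∈ range N₁, ∑ k ∈ range N₂,
        (if m + k = n then H₁ m * H₂ k * φ n else 0) := by
      intro n _
      simp only [sum_mul, ite_mul, zero_mul]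
    rw [sum_congr rfl this, sum_comm]
    refine sum_congr rfl fun m hm => ?_
    rw [sum_comm, mul_sum]
    refine sum_congr rfl fun k hk => ?_
    rw [sum_ite_eq, if_pos]
    · ring
    · rw [mem_range] at hm hk ⊢
      omega

theorem Rep.swap {Φ₁ Φ₂ : (ℕ → ℝ) → ℝ} (h₁ : Rep Φ₁) (h₂ : Rep Φ₂) (φ : ℕ → ℝ) :
    Φ₁ (fun m => Φ₂ (fun k => φ (m + k))) = Φ₂ (fun m => Φ₁ (fun k => φ (m + k))) := by
  obtain ⟨N₁, H₁, h01, e1⟩ := h₁
  obtain ⟨N₂, H₂, h02, e2⟩ := h₂
  simp only [e1, e2, mul_sum]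
  rw [sum_comm]
  refine sum_congr rfl fun m _ => sum_congr rfl fun k _ => ?_
  rw [add_comm k m]
  ring

end Pool.Agent.Lib.MP_16c009_co_lam2
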