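import Mathlib
import Pool.Agent.Lib.MP_16c009_co_lam2.Analytic

set_option autoImplicit false

namespace Pool.Agent.Lib.MP_16c009_co_lam2

open Finset Function

theorem TP.kill {G₁ G₂ : ℕ → ℝ} (h : TP G₁ G₂) (c : ℕ) :
    TP (fun n => if c ≤ n then G₁ n else 0) (fun n => if c ≤ n then G₂ n else 0) := by
  obtain ⟨h1, h2, ⟨hm1, hm2⟩, h3⟩ := h
  refine ⟨?_, ?_, ⟨?_, ?_⟩, ?_⟩
  · intro n
    have := h1 n
    dsimp only
    split_ifs <;> linarith
  · intro n
    have := h2 n
    dsimp only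
    split_ifs <;> linarith
  · intro m n hmn
    have e1 := hm1 hmn
    have e2 := h1 n
    dsimp only
    split_ifs <;> first | omega | linarith
  · intro m n hmn
    have e1 := hm2 hmn
    have e2 := h2 n
    dsimp only
    split_ifs <;> first | omega | linarith
  · intro m n hmn
    dsimp only
    by_cases hm : c ≤ m
    · rw [if_pos hm, if_pos hm, if_pos (by omega : c ≤ n), if_pos (by omega : c ≤ n)]
      exact h3 m n hmn
    · rw [if_neg hm, if_neg hm]
      simp

theorem TP.cap {G₁ G₂ : ℕ → ℝ} (h : TP G₁ G₂) (c : ℕ) :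
    TP (fun n => G₁ (min n c)) (fun n => G₂ (min n c)) := by
  obtain ⟨h1, h2, hm, h3⟩ := h
  refine ⟨fun n => h1 _, fun n => h2 _, ⟨?_, ?_⟩, ?_⟩
  · intro a b hab
    exact hm.1 (by omega)
  · intro a b hab
    exact hm.2 (by omega)
  · intro m n hmn
    exact h3 _ _ (by omega)

theorem Wt.nonneg {W : ℕ → ℝ} (h : Wt W) (n : ℕ) : 0 ≤ W n := (h 0).1 n

theorem Wt.kill {W : ℕ → ℝ} (h : Wt W) (c : ℕ) :
    Wt (fun n => if c ≤ n then W n else 0) := by
  have hmono : Monotone W := (h 0).2.2.1.1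
  intro d
  refine ⟨?_, ?_, ⟨?_, ?_⟩, ?_⟩
  · intro n
    have := h.nonneg n
    dsimp only
    split_ifs <;> linarith
  · intro n
    have := h.nonneg (n + d)
    dsimp only
    split_ifs <;> linarith
  · intro m n hmn
    have e1 := hmono hmn
    have e2 := h.nonneg n
    dsimp only
    split_ifs <;> first | omega | linarith
  · intro m n hmn
    have e1 := hmono (show m + d ≤ n + d by omega)
    have e2 := h.nonneg (n + d)
    dsimp only
    split_ifs <;> first | omega | linarith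
  · intro m n hmn
    dsimp only
    by_cases hm : c ≤ m
    · rw [if_pos hm, if_pos (by omega : c ≤ n + d), if_pos (by omega : c ≤ n),
        if_pos (by omega : c ≤ m + d)]
      exact (h d).2.2.2 m n hmn
    · rw [if_neg hm, zero_mul]
      refine mul_nonneg ?_ ?_
      · split_ifs
        · exact h.nonneg _
        · exact le_rfl
      · split_ifs
        · exact h.nonneg _
        · exact le_rfl

theorem Wt.cap {W : ℕ → ℝ} (h : Wt W) (c : ℕ) :
    Wt (fun n => W (min n c)) := by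
  have hmono : Monotone W := (h 0).2.2.1.1
  intro d
  refine ⟨fun n => h.nonneg _, fun n => h.nonneg _, ⟨?_, ?_⟩, ?_⟩
  · intro a b hab
    exact hmono (by omega)
  · intro a b hab
    exact hmono (by omega)
  · intro m n hmn
    dsimp only
    by_cases h1 : n + d ≤ c
    · rw [min_eq_left h1, min_eq_left (by omega : m ≤ c), min_eq_left (by omega : n ≤ c),
        min_eq_left (by omega : m + d ≤ c)]
      exact (h d).2.2.2 m n hmn
    · by_cases h2 : c ≤ n
      · rw [min_eq_right h2, min_eq_right (by omega : c ≤ n + d), mul_comm (W c)]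
        exact mul_le_mul_of_nonneg_right (hmono (by omega)) (h.nonneg _)
      · rw [min_eq_right (by omega : c ≤ n + d), min_eq_left (by omega : m ≤ c),
          min_eq_left (by omega : n ≤ c)]
        have e1 := (h (c - n)).2.2.2 m n hmn
        dsimp only at e1
        have e2 : n + (c - n) = c := by omega
        rw [e2] at e1
        refine le_trans e1 ?_
        exact mul_le_mul_of_nonneg_left (hmono (by omega)) (h.nonneg _)

theorem Rep.kill {Φ : (ℕ → ℝ) → ℝ} (h : Rep Φ) (c : ℕ) :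
    Rep (fun φ => Φ (fun n => if c ≤ n then φ n else 0)) := by
  obtain ⟨N, H, hH, e⟩ := h
  refine ⟨N, fun k => if c ≤ k then H k else 0, ?_, ?_⟩
  · intro k
    have := hH k
    dsimp only
    split_ifs <;> linarith
  · intro φ
    dsimp only
    rw [e]
    refine sum_congr rfl fun k _ => ?_
    split_ifs <;> simp

theorem Rep.cap {Φ : (ℕ → ℝ) → ℝ} (h : Rep Φ) (c : ℕ) :
    Rep (fun φ => Φ (fun n => φ (min n c))) := by
  obtain ⟨N, H, hH, e⟩ := h
  refine ⟨N, fun j => ∑ k ∈ range N, if min k c = j then H k else 0, ?_, ?_⟩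
  · intro j
    refine sum_nonneg fun k _ => ?_
    have := hH k
    split_ifs <;> linarith
  · intro φ
    dsimp only
    rw [e]
    simp only [sum_mul, ite_mul, zero_mul]
    rw [sum_comm]
    refine sum_congr rfl fun k hk => ?_
    rw [sum_ite_eq, if_pos]
    rw [mem_range] at hk ⊢
    omega

variable {E : Type*} [DecidableEq E]

/-- The correlation inequality for a weighted block. -/
def Corr (Φ : (E → ℝ) → (E → ℝ) → (ℕ → ℝ) → ℝ) (z y : E → ℝ) (e f : E) (W : ℕ → ℝ) : Prop :=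
  Φ z (update (update y e 0) f 0) W * Φ (update (update z e 0) f 0) y W ≤
    Φ (update z f 0) (update y e 0) W * Φ (update z e 0) (update y f 0) W

theorem Corr.symm {Φ : (E → ℝ) → (E → ℝ) → (ℕ → ℝ) → ℝ} {z y : E → ℝ} {e f : E} {W : ℕ → ℝ}
    (hef : e ≠ f) (h : Corr Φ z y e f W) : Corr Φ z y f e W := by
  unfold Corr at *
  rw [update_comm hef.symm _ _ y, update_comm hef.symm _ _ z]
  rw [mul_comm (Φ (update z e 0) (update y f 0) W)]
  exact h

/-- A weighted block: a functional with all the properties needed. -/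
structure Blk (V : Finset E) (Φ : (E → ℝ) → (E → ℝ) → (ℕ → ℝ) → ℝ) : Prop where
  loc : ∀ z y z' y', (∀ a ∈ V, z a = z' a) → (∀ a ∈ V, y a = y' a) → Φ z y = Φ z' y'
  rep : ∀ z y, (∀ a, 0 ≤ z a) → (∀ a, 0 ≤ y a) → Rep (Φ z y)
  good : ∀ z y, (∀ a, 0 ≤ z a) → (∀ a, 0 ≤ y a) → Good (Φ z y)
  ord : ∀ z y, (∀ a, 0 ≤ z a) → (∀ a, 0 ≤ y a) → ∀ e ∈ V,
    Ord (Φ (update z e 0) y) (Φ z (update y e 0))
  corr : ∀ z y, (∀ a, 0 ≤ z a) → (∀ a, 0 ≤ y a) → ∀ e ∈ V, ∀ f ∈ V, e ≠ f → ∀ W, Wt W →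
    Corr Φ z y e f W

theorem upd_nonneg {z : E → ℝ} (hz : ∀ a, 0 ≤ z a) (e : E) : ∀ a, 0 ≤ update z e 0 a := by
  intro a
  by_cases h : a = e
  · subst h
    simp
  · rw [update_of_ne h]
    exact hz a

theorem Blk.loc_z {V : Finset E} {Φ : (E → ℝ) → (E → ℝ) → (ℕ → ℝ) → ℝ}
    (h : Blk V Φ) {e : E} (he : e ∉ V) (z y : E → ℝ) (c : ℝ) : Φ (update z e c) y = Φ z y := by
  refine h.loc _ _ _ _ (fun a ha => ?_) (fun a _ => rfl)
  rw [update_of_ne]
  rintro rfl
  exact he ha

theorem Blk.loc_y {V : Finset E} {Φ : (E → ℝ) → (E → ℝ) → (ℕ → ℝ) → ℝ}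
    (h : Blk V Φ) {e : E} (he : e ∉ V) (z y : E → ℝ) (c : ℝ) : Φ z (update y e c) = Φ z y := by
  refine h.loc _ _ _ _ (fun a _ => rfl) (fun a ha => ?_)
  rw [update_of_ne]
  rintro rfl
  exact he ha

theorem blk_empty : Blk (∅ : Finset E) (fun _ _ φ => φ 0) where
  loc := by
    intro z y z' y' _ _
    rfl
  rep := by
    intro z y _ _
    exact ⟨1, fun _ => 1, fun _ => zero_le_one, fun φ => by simp⟩
  good := by
    intro z y _ _ G₁ G₂ h d
    have := h.2.2.2 0 (0 + d) (by omega)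
    exact this
  ord := by
    intro z y _ _ e he
    simp at he
  corr := by
    intro z y _ _ e he
    simp at he

theorem blk_single (e : E) :
    Blk ({e} : Finset E) (fun z y φ => y e * φ 0 + z e * φ 1) where
  loc := by
    intro z y z' y' hz hy
    funext φ
    rw [hz e (mem_singleton_self e), hy e (mem_singleton_self e)]
  rep := by
    intro z y hz hy
    refine ⟨2, fun k => if k = 0 then y e else z e, ?_, ?_⟩
    · intro k
      have := hz e
      have := hy e
      dsimp only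
      split_ifs <;> assumption
    · intro φ
      simp [sum_range_succ]
  good := by
    intro z y hz hy G₁ G₂ h d
    have a := hz e
    have b := hy e
    have h1 := h.2.2.2 0 (0 + d) (by omega)
    have h2 := h.2.2.2 0 (1 + d) (by omega)
    have h3 := h.2.2.2 1 (1 + d) (by omega)
    have h5 : G₁ 1 * G₂ (0 + d) + G₁ 0 * G₂ (1 + d) ≤ G₁ (1 + d) * G₂ 0 + G₁ (0 + d) * G₂ 1 := by
      rcases Nat.eq_zero_or_pos d with hd | hd
      · subst hd
        simp only [add_zero]
        linarith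
      · have h4 := h.2.2.2 1 (0 + d) (by omega)
        linarith
    have e1 := mul_le_mul_of_nonneg_left h1 (mul_nonneg b b)
    have e3 := mul_le_mul_of_nonneg_left h3 (mul_nonneg a a)
    have e5 := mul_le_mul_of_nonneg_left h5 (mul_nonneg a b)
    dsimp only
    nlinarith [e1, e3, e5]
  ord := by
    intro z y hz hy e' he'
    rw [mem_singleton] at he'
    subst he'
    intro G₁ G₂ h
    simp only [update_self, zero_mul, add_zero, zero_add]
    have h1 := h.2.2.2 0 1 (by omega)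
    have := mul_le_mul_of_nonneg_left h1 (mul_nonneg (hz e') (hy e'))
    nlinarith [this]
  corr := by
    intro z y _ _ a ha b hb hab
    rw [mem_singleton] at ha hb
    exact absurd (ha.trans hb.symm) hab

theorem blk_zero (V : Finset E) : Blk V (fun _ _ _ => 0) where
  loc := by
    intro z y z' y' _ _
    rfl
  rep := by
    intro z y _ _
    exact ⟨0, fun _ => 0, fun _ => le_rfl, fun φ => by simp⟩
  good := by
    intro z y _ _ G₁ G₂ _ d
    simp
  ord := by
    intro z y _ _ e _ G₁ G₂ _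
    simp
  corr := by
    intro z y _ _ e _ f _ _ W _
    simp [Corr]

theorem Blk.kill {V : Finset E} {Φ : (E → ℝ) → (E → ℝ) → (ℕ → ℝ) → ℝ}
    (h : Blk V Φ) (c : ℕ) : Blk V (fun z y φ => Φ z y (fun n => if c ≤ n then φ n else 0)) where
  loc := by
    intro z y z' y' hz hy
    rw [h.loc z y z' y' hz hy]
  rep := fun z y hz hy => (h.rep z y hz hy).kill c
  good := fun z y hz hy => good_kill (h.rep z y hz hy) (h.good z y hz hy) c
  ord := fun z y hz hy e he G₁ G₂ hG => h.ord z y hz hy e he _ _ (hG.kill c)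
  corr := fun z y hz hy e he f hf hef W hW => h.corr z y hz hy e he f hf hef _ (hW.kill c)

theorem Blk.cap {V : Finset E} {Φ : (E → ℝ) → (E → ℝ) → (ℕ → ℝ) → ℝ}
    (h : Blk V Φ) (c : ℕ) : Blk V (fun z y φ => Φ z y (fun n => φ (min n c))) where
  loc := by
    intro z y z' y' hz hy
    rw [h.loc z y z' y' hz hy]
  rep := fun z y hz hy => (h.rep z y hz hy).cap c
  good := fun z y hz hy => good_min (h.rep z y hz hy) (h.good z y hz hy) c
  ord := fun z y hz hy e he G₁ G₂ hG => h.ord z y hz hy e he _ _ (hG.cap c)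
  corr := fun z y hz hy e he f hf hef W hW => h.corr z y hz hy e he f hf hef _ (hW.cap c)

/-- The functional of a direct sum. -/
def SF (Φ₁ Φ₂ : (E → ℝ) → (E → ℝ) → (ℕ → ℝ) → ℝ) (z y : E → ℝ) (φ : ℕ → ℝ) : ℝ :=
  Φ₁ z y (fun m => Φ₂ z y (fun k => φ (m + k)))

section Sum

variable {V₁ V₂ : Finset E} {Φ₁ Φ₂ : (E → ℝ) → (E → ℝ) → (ℕ → ℝ) → ℝ}

theorem sf_swap (h₁ : Blk V₁ Φ₁) (h₂ : Blk V₂ Φ₂) {z y : E → ℝ} (hz : ∀ a, 0 ≤ z a)
    (hy : ∀ a, 0 ≤ y a) : SF Φ₁ Φ₂ z y = SF Φ₂ Φ₁ z y := by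
  funext φ
  exact (h₁.rep z y hz hy).swap (h₂.rep z y hz hy) φ

theorem sf_ordL (hd : Disjoint V₁ V₂) (h₁ : Blk V₁ Φ₁) (h₂ : Blk V₂ Φ₂) {z y : E → ℝ}
    (hz : ∀ a, 0 ≤ z a) (hy : ∀ a, 0 ≤ y a) {e : E} (he : e ∈ V₁) :
    Ord (SF Φ₁ Φ₂ (update z e 0) y) (SF Φ₁ Φ₂ z (update y e 0)) := by
  have he2 : e ∉ V₂ := disjoint_left.mp hd he
  intro G₁ G₂ hG
  unfold SF
  rw [h₂.loc_z he2, h₂.loc_y he2]
  exact h₁.ord z y hz hy e he _ _ (hG.conv (h₂.rep z y hz hy) (h₂.good z y hz hy))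

theorem sf_corrLL (hd : Disjoint V₁ V₂) (h₁ : Blk V₁ Φ₁) (h₂ : Blk V₂ Φ₂) {z y : E → ℝ}
    (hz : ∀ a, 0 ≤ z a) (hy : ∀ a, 0 ≤ y a) {e f : E} (he : e ∈ V₁) (hf : f ∈ V₁) (hef : e ≠ f)
    {W : ℕ → ℝ} (hW : Wt W) : Corr (SF Φ₁ Φ₂) z y e f W := by
  have he2 : e ∉ V₂ := disjoint_left.mp hd he
  have hf2 : f ∉ V₂ := disjoint_left.mp hd hf
  unfold Corr SF
  rw [h₂.loc_y hf2, h₂.loc_y he2, h₂.loc_z hf2, h₂.loc_z he2, h₂.loc_z hf2, h₂.loc_y he2,
    h₂.loc_z he2, h₂.loc_y hf2]
  exact h₁.corr z y hz hy e he f hf hef _ (hW.conv (h₂.rep z y hz hy) (h₂.good z y hz hy))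

theorem sf_corrLR (hd : Disjoint V₁ V₂) (h₁ : Blk V₁ Φ₁) (h₂ : Blk V₂ Φ₂) {z y : E → ℝ}
    (hz : ∀ a, 0 ≤ z a) (hy : ∀ a, 0 ≤ y a) {e f : E} (he : e ∈ V₁) (hf : f ∈ V₂)
    {W : ℕ → ℝ} (hW : Wt W) : Corr (SF Φ₁ Φ₂) z y e f W := by
  have he2 : e ∉ V₂ := disjoint_left.mp hd he
  have hf1 : f ∉ V₁ := disjoint_right.mp hd hf
  have hef : e ≠ f := by
    rintro rfl
    exact he2 hf
  unfold Corr SF
  have a1 : Φ₁ z (update (update y e 0) f 0) = Φ₁ z (update y e 0) := h₁.loc_y hf1 _ _ _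
  have a2 : Φ₂ z (update (update y e 0) f 0) = Φ₂ z (update y f 0) := by
    rw [update_comm hef]
    exact h₂.loc_y he2 _ _ _
  have a3 : Φ₁ (update (update z e 0) f 0) y = Φ₁ (update z e 0) y := h₁.loc_z hf1 _ _ _
  have a4 : Φ₂ (update (update z e 0) f 0) y = Φ₂ (update z f 0) y := by
    rw [update_comm hef]
    exact h₂.loc_z he2 _ _ _
  have a5 : Φ₁ (update z f 0) (update y e 0) = Φ₁ z (update y e 0) := h₁.loc_z hf1 _ _ _
  have a6 : Φ₂ (update z f 0) (update y e 0) = Φ₂ (update z f 0) y := h₂.loc_y he2 _ _ _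
  have a7 : Φ₁ (update z e 0) (update y f 0) = Φ₁ (update z e 0) y := h₁.loc_y hf1 _ _ _
  have a8 : Φ₂ (update z e 0) (update y f 0) = Φ₂ z (update y f 0) := h₂.loc_z he2 _ _ _
  rw [a1, a2, a3, a4, a5, a6, a7, a8]
  have r1 : Rep (Φ₂ (update z f 0) y) := h₂.rep _ _ (upd_nonneg hz f) hy
  have r2 : Rep (Φ₂ z (update y f 0)) := h₂.rep _ _ hz (upd_nonneg hy f)
  have hT : TP (fun m => Φ₂ (update z f 0) y (fun k => W (m + k)))
      (fun m => Φ₂ z (update y f 0) (fun k => W (m + k))) := by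
    refine ⟨fun n => r1.nonneg fun k => hW.nonneg _, fun n => r2.nonneg fun k => hW.nonneg _,
      ?_, ?_⟩
    · have hmono : Monotone W := (hW 0).2.2.1.1
      refine ⟨?_, ?_⟩
      · intro a b hab
        exact r1.mono fun k => hmono (by omega)
      · intro a b hab
        exact r2.mono fun k => hmono (by omega)
    · intro x x' hxx
      have t := (hW (x' - x)).shift x
      have e1 : (fun k => W (x + k + (x' - x))) = fun k => W (x' + k) := by
        funext k
        congr 1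
        omega
      rw [e1] at t
      have := h₂.ord z y hz hy f hf _ _ t
      dsimp only
      linarith
  have := h₁.ord z y hz hy e he _ _ hT
  linarith

end Sum

theorem blk_sum {V₁ V₂ : Finset E} {Φ₁ Φ₂ : (E → ℝ) → (E → ℝ) → (ℕ → ℝ) → ℝ}
    (hd : Disjoint V₁ V₂) (h₁ : Blk V₁ Φ₁) (h₂ : Blk V₂ Φ₂) :
    Blk (V₁ ∪ V₂) (SF Φ₁ Φ₂) where
  loc := by
    intro z y z' y' hz hy
    funext φ
    unfold SF
    rw [h₁.loc z y z' y' (fun a ha => hz a (mem_union_left _ ha))
      (fun a ha => hy a (mem_union_left _ ha)),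
      h₂.loc z y z' y' (fun a ha => hz a (mem_union_right _ ha))
      (fun a ha => hy a (mem_union_right _ ha))]
  rep := fun z y hz hy => (h₁.rep z y hz hy).comp (h₂.rep z y hz hy)
  good := by
    intro z y hz hy G₁ G₂ hG d
    have := h₁.good z y hz hy _ _ (hG.conv (h₂.rep z y hz hy) (h₂.good z y hz hy)) d
    unfold SF
    have e1 : (fun m => Φ₂ z y (fun k => G₂ (m + k + d))) =
        fun m => Φ₂ z y (fun k => G₂ (m + d + k)) := by
      funext m
      congr 1
      funext k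
      congr 1
      omega
    have e2 : (fun m => Φ₂ z y (fun k => G₁ (m + k + d))) =
        fun m => Φ₂ z y (fun k => G₁ (m + d + k)) := by
      funext m
      congr 1
      funext k
      congr 1
      omega
    rw [e1, e2]
    exact this
  ord := by
    intro z y hz hy e he
    rw [mem_union] at he
    rcases he with he | he
    · exact sf_ordL hd h₁ h₂ hz hy he
    · have := sf_ordL hd.symm h₂ h₁ hz hy he
      rw [sf_swap h₂ h₁ (upd_nonneg hz e) hy, sf_swap h₂ h₁ hz (upd_nonneg hy e)] at this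
      exact this
  corr := by
    intro z y hz hy e he f hf hef W hW
    rw [mem_union] at he hf
    rcases he with he | he
    · rcases hf with hf | hf
      · exact sf_corrLL hd h₁ h₂ hz hy he hf hef hW
      · exact sf_corrLR hd h₁ h₂ hz hy he hf hW
    · rcases hf with hf | hf
      · exact (sf_corrLR hd h₁ h₂ hz hy hf he hW).symm hef.symm
      · have := sf_corrLL hd.symm h₂ h₁ hz hy he hf hef hW
        unfold Corr at this ⊢
        rw [sf_swap h₂ h₁ hz (upd_nonneg (upd_nonneg hy e) f),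
          sf_swap h₂ h₁ (upd_nonneg (upd_nonneg hz e) f) hy,
          sf_swap h₂ h₁ (upd_nonneg hz f) (upd_nonneg hy e),
          sf_swap h₂ h₁ (upd_nonneg hz e) (upd_nonneg hy f)] at this
        exact this

end Pool.Agent.Lib.MP_16c009_co_lam2
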