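import Mathlib
import Pool.Agent.Lib.MP_16c009_co_lam2.Blocks

set_option autoImplicit false

namespace Pool.Agent.Lib.MP_16c009_co_lam2

open Finset Function

/-- The product weight of a subset `A` of `V`. -/
def wt {E : Type*} [DecidableEq E] (V : Finset E) (z y : E → ℝ) (A : Finset E) : ℝ :=
  (∏ a ∈ A, z a) * ∏ a ∈ V \ A, y a

open Classical in
/-- The functional of a block: sum over the alive subsets of `V`, evaluated at their level. -/
noncomputable def Phi {E : Type*} [DecidableEq E] (V : Finset E) (alive : Finset E → Prop) (r : Finset E → ℕ)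
    (z y : E → ℝ) (φ : ℕ → ℝ) : ℝ :=
  ∑ A ∈ V.powerset, (if alive A then wt V z y A * φ (r A) else 0)

/-- The two-sided constraints. -/
def Valid {E : Type*} [DecidableEq E] (𝒜 : Finset (Finset E)) (l u : Finset E → ℕ)
    (B : Finset E) : Prop :=
  ∀ X ∈ 𝒜, l X ≤ (B ∩ X).card ∧ (B ∩ X).card ≤ u X

variable {E : Type*} [DecidableEq E]

theorem sum_powerset_union {V₁ V₂ : Finset E} (hd : Disjoint V₁ V₂) (F : Finset E → ℝ) :
    ∑ A ∈ (V₁ ∪ V₂).powerset, F A =
      ∑ A₁ ∈ V₁.powerset, ∑ A₂ ∈ V₂.powerset, F (A₁ ∪ A₂) := by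
  rw [← sum_product']
  refine sum_nbij' (fun A => (A ∩ V₁, A ∩ V₂)) (fun p => p.1 ∪ p.2) ?_ ?_ ?_ ?_ ?_
  · intro A _
    rw [mem_product, mem_powerset, mem_powerset]
    exact ⟨inter_subset_right, inter_subset_right⟩
  · intro p hp
    rw [mem_product, mem_powerset, mem_powerset] at hp
    rw [mem_powerset]
    exact union_subset_union hp.1 hp.2
  · intro A hA
    rw [mem_powerset] at hA
    rw [← inter_union_distrib_left, inter_eq_left.mpr hA]
  · intro p hp
    rw [mem_product, mem_powerset, mem_powerset] at hp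
    have h1 : p.2 ∩ V₁ = ∅ := by
      rw [← disjoint_iff_inter_eq_empty]
      exact disjoint_of_subset_left hp.2 hd.symm
    have h2 : p.1 ∩ V₂ = ∅ := by
      rw [← disjoint_iff_inter_eq_empty]
      exact disjoint_of_subset_left hp.1 hd
    rw [union_inter_distrib_right, union_inter_distrib_right, h1, h2, union_empty, empty_union,
      inter_eq_left.mpr hp.1, inter_eq_left.mpr hp.2]
  · intro A hA
    rw [mem_powerset] at hA
    dsimp only
    rw [← inter_union_distrib_left, inter_eq_left.mpr hA]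

theorem wt_union {V₁ V₂ A₁ A₂ : Finset E} (hd : Disjoint V₁ V₂) (h₁ : A₁ ⊆ V₁) (h₂ : A₂ ⊆ V₂)
    (z y : E → ℝ) : wt (V₁ ∪ V₂) z y (A₁ ∪ A₂) = wt V₁ z y A₁ * wt V₂ z y A₂ := by
  have d1 : Disjoint A₁ A₂ := disjoint_of_subset_left h₁ (disjoint_of_subset_right h₂ hd)
  have d2 : Disjoint (V₁ \ A₁) (V₂ \ A₂) :=
    disjoint_of_subset_left sdiff_subset (disjoint_of_subset_right sdiff_subset hd)
  have e : (V₁ ∪ V₂) \ (A₁ ∪ A₂) = (V₁ \ A₁) ∪ (V₂ \ A₂) := by
    ext a
    simp only [mem_sdiff, mem_union, not_or]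
    constructor
    · rintro ⟨h | h, h3, h4⟩
      · exact Or.inl ⟨h, h3⟩
      · exact Or.inr ⟨h, h4⟩
    · rintro (⟨h, h3⟩ | ⟨h, h3⟩)
      · exact ⟨Or.inl h, h3, fun h4 => disjoint_left.mp hd h (h₂ h4)⟩
      · exact ⟨Or.inr h, fun h4 => disjoint_left.mp hd (h₁ h4) h, h3⟩
  unfold wt
  rw [e, prod_union d1, prod_union d2]
  ring

/-- A block of the recursion: `Val A`, the set of sizes of valid subsets of `A`, is the interval
`[m, r A]` for the alive sets `A` and empty for the others. -/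
structure RB (V : Finset E) (𝒜 : Finset (Finset E)) (l u : Finset E → ℕ) (m : ℕ)
    (r : Finset E → ℕ) (alive : Finset E → Prop) : Prop where
  val : ∀ A ⊆ V, ∀ k, (∃ B ⊆ A, Valid 𝒜 l u B ∧ B.card = k) ↔ (alive A ∧ m ≤ k ∧ k ≤ r A)
  ne : ∀ A ⊆ V, alive A → m ≤ r A
  blk : Blk V (Phi V alive r)

theorem phi_sum {V₁ V₂ : Finset E} (hd : Disjoint V₁ V₂) (a₁ a₂ : Finset E → Prop)
    (r₁ r₂ : Finset E → ℕ) :
    Phi (V₁ ∪ V₂) (fun A => a₁ (A ∩ V₁) ∧ a₂ (A ∩ V₂)) (fun A => r₁ (A ∩ V₁) + r₂ (A ∩ V₂)) =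
      SF (Phi V₁ a₁ r₁) (Phi V₂ a₂ r₂) := by
  have hu1 : ∀ A₁ A₂ : Finset E, A₁ ⊆ V₁ → A₂ ⊆ V₂ → (A₁ ∪ A₂) ∩ V₁ = A₁ := by
    intro A₁ A₂ a1 a2
    have : A₂ ∩ V₁ = ∅ := by
      rw [← disjoint_iff_inter_eq_empty]
      exact disjoint_of_subset_left a2 hd.symm
    rw [union_inter_distrib_right, this, union_empty, inter_eq_left.mpr a1]
  have hu2 : ∀ A₁ A₂ : Finset E, A₁ ⊆ V₁ → A₂ ⊆ V₂ → (A₁ ∪ A₂) ∩ V₂ = A₂ := by
    intro A₁ A₂ a1 a2
    have : A₁ ∩ V₂ = ∅ := by
      rw [← disjoint_iff_inter_eq_empty]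
      exact disjoint_of_subset_left a1 hd
    rw [union_inter_distrib_right, this, empty_union, inter_eq_left.mpr a2]
  funext z y φ
  unfold SF Phi
  beta_reduce
  rw [sum_powerset_union hd]
  refine sum_congr rfl fun A₁ hA₁ => ?_
  rw [mem_powerset] at hA₁
  by_cases h1 : a₁ A₁
  · rw [if_pos h1, mul_sum]
    refine sum_congr rfl fun A₂ hA₂ => ?_
    rw [mem_powerset] at hA₂
    rw [hu1 _ _ hA₁ hA₂, hu2 _ _ hA₁ hA₂]
    by_cases h2 : a₂ A₂
    · rw [if_pos ⟨h1, h2⟩, if_pos h2, wt_union hd hA₁ hA₂]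
      ring
    · rw [if_neg (fun h => h2 h.2), if_neg h2, mul_zero]
  · rw [if_neg h1]
    refine sum_eq_zero fun A₂ hA₂ => ?_
    rw [mem_powerset] at hA₂
    rw [hu1 _ _ hA₁ hA₂, if_neg (fun h => h1 h.1)]

theorem powerset_single (e : E) (F : Finset E → ℝ) :
    ∑ A ∈ ({e} : Finset E).powerset, F A = F ∅ + F {e} := by
  have : ({e} : Finset E).powerset = {∅, {e}} := by
    ext A
    simp [subset_singleton_iff]
  rw [this, sum_pair]
  intro h
  have := congrArg Finset.card h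
  simp at this

theorem phi_empty : Phi (∅ : Finset E) (fun _ => True) Finset.card = fun _ _ φ => φ 0 := by
  funext z y φ
  simp [Phi, wt]

theorem phi_single (e : E) : Phi ({e} : Finset E) (fun _ => True) Finset.card =
    fun z y φ => y e * φ 0 + z e * φ 1 := by
  funext z y φ
  unfold Phi
  rw [powerset_single]
  simp [wt]

theorem blk_free (V : Finset E) : Blk V (Phi V (fun _ => True) Finset.card) := by
  induction V using Finset.induction_on with
  | empty =>
    rw [phi_empty]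
    exact blk_empty
  | insert a V ha ih =>
    have hd : Disjoint ({a} : Finset E) V := disjoint_singleton_left.mpr ha
    have h1 : Blk ({a} : Finset E) (Phi ({a} : Finset E) (fun _ => True) Finset.card) := by
      rw [phi_single]
      exact blk_single a
    have := blk_sum hd h1 ih
    rw [← phi_sum hd] at this
    have e : Phi ({a} ∪ V) (fun _ => True ∧ True)
        (fun A => (A ∩ {a}).card + (A ∩ V).card) =
        Phi (insert a V) (fun _ => True) Finset.card := by
      funext z y φ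
      unfold Phi
      rw [insert_eq]
      refine sum_congr rfl fun A hA => ?_
      rw [mem_powerset] at hA
      have e1 : (A ∩ {a}).card + (A ∩ V).card = A.card := by
        rw [← card_union_of_disjoint, ← inter_union_distrib_left, inter_eq_left.mpr hA]
        exact disjoint_of_subset_left inter_subset_right
          (disjoint_of_subset_right inter_subset_right hd)
      beta_reduce
      rw [e1, if_pos trivial, if_pos ⟨trivial, trivial⟩]
    rw [e, ← insert_eq] at this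
    exact this

theorem rb_free (V : Finset E) (l u : Finset E → ℕ) :
    RB V ∅ l u 0 Finset.card (fun _ => True) where
  val := by
    intro A _ k
    constructor
    · rintro ⟨B, hBA, _, rfl⟩
      exact ⟨trivial, Nat.zero_le _, card_le_card hBA⟩
    · rintro ⟨_, _, hk⟩
      obtain ⟨B, hB, hBc⟩ := exists_subset_card_eq hk
      exact ⟨B, hB, fun X hX => absurd hX (notMem_empty X), hBc⟩
  ne := fun A _ _ => Nat.zero_le _
  blk := blk_free V

theorem rb_sum {V₁ V₂ : Finset E} {𝒜₁ 𝒜₂ 𝒜 : Finset (Finset E)} {l u : Finset E → ℕ} {m₁ m₂ : ℕ}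
    {r₁ r₂ : Finset E → ℕ} {a₁ a₂ : Finset E → Prop} (hd : Disjoint V₁ V₂)
    (hs1 : ∀ X ∈ 𝒜₁, X ⊆ V₁) (hs2 : ∀ X ∈ 𝒜₂, X ⊆ V₂) (h𝒜 : ∀ X, X ∈ 𝒜 ↔ X ∈ 𝒜₁ ∨ X ∈ 𝒜₂)
    (h₁ : RB V₁ 𝒜₁ l u m₁ r₁ a₁) (h₂ : RB V₂ 𝒜₂ l u m₂ r₂ a₂) :
    RB (V₁ ∪ V₂) 𝒜 l u (m₁ + m₂) (fun A => r₁ (A ∩ V₁) + r₂ (A ∩ V₂))
      (fun A => a₁ (A ∩ V₁) ∧ a₂ (A ∩ V₂)) where
  val := by
    intro A hA k
    have j1 : ∀ B X : Finset E, X ⊆ V₁ → B ∩ V₁ ∩ X = B ∩ X := by
      intro B X hX
      rw [inter_assoc, inter_eq_right.mpr hX]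
    have j2 : ∀ B X : Finset E, X ⊆ V₂ → B ∩ V₂ ∩ X = B ∩ X := by
      intro B X hX
      rw [inter_assoc, inter_eq_right.mpr hX]
    have i1 := h₁.val (A ∩ V₁) inter_subset_right
    have i2 := h₂.val (A ∩ V₂) inter_subset_right
    constructor
    · rintro ⟨B, hBA, hBv, hBk⟩
      have hBV : B ⊆ V₁ ∪ V₂ := hBA.trans hA
      have hc : (B ∩ V₁).card + (B ∩ V₂).card = B.card := by
        rw [← card_union_of_disjoint, ← inter_union_distrib_left, inter_eq_left.mpr hBV]
        exact disjoint_of_subset_left inter_subset_right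
          (disjoint_of_subset_right inter_subset_right hd)
      have k1 := (i1 (B ∩ V₁).card).mp ⟨B ∩ V₁, inter_subset_inter_right hBA, fun X hX => by
        rw [j1 B X (hs1 X hX)]
        exact hBv X ((h𝒜 X).mpr (Or.inl hX)), rfl⟩
      have k2 := (i2 (B ∩ V₂).card).mp ⟨B ∩ V₂, inter_subset_inter_right hBA, fun X hX => by
        rw [j2 B X (hs2 X hX)]
        exact hBv X ((h𝒜 X).mpr (Or.inr hX)), rfl⟩
      refine ⟨⟨k1.1, k2.1⟩, ?_, ?_⟩
      · have := k1.2.1
        have := k2.2.1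
        omega
      · have := k1.2.2
        have := k2.2.2

        omega
    · rintro ⟨⟨hal1, hal2⟩, hk1, hk2⟩
      have n1 := h₁.ne _ inter_subset_right hal1
      have n2 := h₂.ne _ inter_subset_right hal2
      obtain ⟨k₁, k₂, hkk, q1, q2, q3, q4⟩ : ∃ k₁ k₂ : ℕ, k₁ + k₂ = k ∧ m₁ ≤ k₁ ∧
          k₁ ≤ r₁ (A ∩ V₁) ∧ m₂ ≤ k₂ ∧ k₂ ≤ r₂ (A ∩ V₂) := by
        refine ⟨min (r₁ (A ∩ V₁)) (k - m₂), k - min (r₁ (A ∩ V₁)) (k - m₂), ?_, ?_, ?_, ?_, ?_⟩ <;>
          omega
      obtain ⟨B₁, hB₁, v₁, c₁⟩ := (i1 k₁).mpr ⟨hal1, q1, q2⟩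
      obtain ⟨B₂, hB₂, v₂, c₂⟩ := (i2 k₂).mpr ⟨hal2, q3, q4⟩
      have s1 : B₁ ⊆ V₁ := hB₁.trans inter_subset_right
      have s2 : B₂ ⊆ V₂ := hB₂.trans inter_subset_right
      refine ⟨B₁ ∪ B₂, union_subset (hB₁.trans inter_subset_left) (hB₂.trans inter_subset_left),
        ?_, ?_⟩
      · intro X hX
        rcases (h𝒜 X).mp hX with hX | hX
        · have : (B₁ ∪ B₂) ∩ X = B₁ ∩ X := by
            have : B₂ ∩ X = ∅ := by
              rw [← disjoint_iff_inter_eq_empty]
              exact disjoint_of_subset_left s2 (disjoint_of_subset_right (hs1 X hX) hd.symm)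
            rw [union_inter_distrib_right, this, union_empty]
          rw [this]
          exact v₁ X hX
        · have : (B₁ ∪ B₂) ∩ X = B₂ ∩ X := by
            have : B₁ ∩ X = ∅ := by
              rw [← disjoint_iff_inter_eq_empty]
              exact disjoint_of_subset_left s1 (disjoint_of_subset_right (hs2 X hX) hd)
            rw [union_inter_distrib_right, this, empty_union]
          rw [this]
          exact v₂ X hX
      · rw [card_union_of_disjoint, c₁, c₂, hkk]
        exact disjoint_of_subset_left s1 (disjoint_of_subset_right s2 hd)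
  ne := by
    intro A _ hal
    exact Nat.add_le_add (h₁.ne _ inter_subset_right hal.1) (h₂.ne _ inter_subset_right hal.2)
  blk := by
    rw [phi_sum hd]
    exact blk_sum hd h₁.blk h₂.blk

theorem rb_trunc {V : Finset E} {𝒜 : Finset (Finset E)} {l u : Finset E → ℕ} {m : ℕ}
    {r : Finset E → ℕ} {alive : Finset E → Prop} (hV : V ∈ 𝒜)
    (h : RB V (𝒜.erase V) l u m r alive) :
    ∃ (m' : ℕ) (r' : Finset E → ℕ) (alive' : Finset E → Prop), RB V 𝒜 l u m' r' alive' := by
  have hval : ∀ B ⊆ V, (Valid 𝒜 l u B ↔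
      Valid (𝒜.erase V) l u B ∧ l V ≤ B.card ∧ B.card ≤ u V) := by
    intro B hB
    constructor
    · intro hv
      refine ⟨fun X hX => hv X (mem_of_mem_erase hX), ?_⟩
      have := hv V hV
      rw [inter_eq_left.mpr hB] at this
      exact this
    · rintro ⟨hv, hc⟩ X hX
      by_cases hXV : X = V
      · subst hXV
        rw [inter_eq_left.mpr hB]
        exact hc
      · exact hv X (mem_erase.mpr ⟨hXV, hX⟩)
  have hiff : ∀ A ⊆ V, ∀ k, (∃ B ⊆ A, Valid 𝒜 l u B ∧ B.card = k) ↔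
      ((alive A ∧ m ≤ k ∧ k ≤ r A) ∧ l V ≤ k ∧ k ≤ u V) := by
    intro A hA k
    rw [← h.val A hA k]
    constructor
    · rintro ⟨B, hBA, hv, rfl⟩
      have := (hval B (hBA.trans hA)).mp hv
      exact ⟨⟨B, hBA, this.1, rfl⟩, this.2⟩
    · rintro ⟨⟨B, hBA, hv, rfl⟩, hk⟩
      exact ⟨B, hBA, (hval B (hBA.trans hA)).mpr ⟨hv, hk⟩, rfl⟩
  by_cases hmu : m ≤ u V ∧ l V ≤ u V
  · refine ⟨max m (l V), fun A => min (r A) (u V), fun A => alive A ∧ l V ≤ r A, ?_, ?_, ?_⟩
    · intro A hA k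
      rw [hiff A hA k]
      have hne := h.ne A hA
      constructor
      · rintro ⟨⟨h1, h2, h3⟩, h4, h5⟩
        refine ⟨⟨h1, by omega⟩, by omega, ?_⟩
        omega
      · rintro ⟨⟨h1, h2⟩, h3, h4⟩
        refine ⟨⟨h1, by omega, by omega⟩, by omega, by omega⟩
    · intro A hA hal
      have := h.ne A hA hal.1
      have := hal.2
      omega
    · have e : Phi V (fun A => alive A ∧ l V ≤ r A) (fun A => min (r A) (u V)) =
          fun z y φ => Phi V alive r z y (fun n => if l V ≤ n then φ (min n (u V)) else 0) := by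
        funext z y φ
        unfold Phi
        beta_reduce
        refine sum_congr rfl fun A _ => ?_
        by_cases h1 : alive A
        · by_cases h2 : l V ≤ r A
          · rw [if_pos ⟨h1, h2⟩, if_pos h1, if_pos h2]
          · rw [if_neg (fun h => h2 h.2), if_pos h1, if_neg h2, mul_zero]
        · rw [if_neg (fun h => h1 h.1), if_neg h1]
      rw [e]
      exact (h.blk.kill (l V)).cap (u V)
  · refine ⟨0, fun _ => 0, fun _ => False, ?_, fun A _ h => h.elim, ?_⟩
    · intro A hA k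
      rw [hiff A hA k]
      constructor
      · rintro ⟨⟨h1, h2, h3⟩, h4, h5⟩
        exact absurd ⟨by omega, by omega⟩ hmu
      · rintro ⟨h, _⟩
        exact h.elim
    · have e : Phi V (fun _ => False) (fun _ => 0) = fun _ _ _ => 0 := by
        funext z y φ
        simp [Phi]
      rw [e]
      exact blk_zero V

/-- Two-sided laminar systems have the block structure. -/
theorem exists_rb (l u : Finset E → ℕ) : ∀ (n : ℕ) (V : Finset E) (𝒜 : Finset (Finset E)),
    V.card + 𝒜.card ≤ n → (∀ A ∈ 𝒜, A ⊆ V) → (∀ A ∈ 𝒜, A.Nonempty) →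
    (∀ A ∈ 𝒜, ∀ B ∈ 𝒜, A ⊆ B ∨ B ⊆ A ∨ Disjoint A B) →
    ∃ (m : ℕ) (r : Finset E → ℕ) (alive : Finset E → Prop), RB V 𝒜 l u m r alive := by
  intro n
  induction n with
  | zero =>
    intro V 𝒜 hn _ _ _
    have h𝒜 : 𝒜 = ∅ := card_eq_zero.mp (by omega)
    subst h𝒜
    exact ⟨_, _, _, rb_free V l u⟩
  | succ n ih =>
    intro V 𝒜 hn hsub hnon hlam
    by_cases hV : V ∈ 𝒜
    · have hc : (𝒜.erase V).card < 𝒜.card := card_erase_lt_of_mem hV
      obtain ⟨m, r, alive, hr⟩ := ih V (𝒜.erase V) (by omega)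
        (fun A hA => hsub A (mem_of_mem_erase hA)) (fun A hA => hnon A (mem_of_mem_erase hA))
        (fun A hA B hB => hlam A (mem_of_mem_erase hA) B (mem_of_mem_erase hB))
      exact rb_trunc hV hr
    · by_cases hne : 𝒜.Nonempty
      · obtain ⟨A₀, hA₀, hmax⟩ := exists_max_image 𝒜 Finset.card hne
        have hA₀n : A₀.Nonempty := hnon A₀ hA₀
        have hA₀V : A₀ ⊆ V := hsub A₀ hA₀
        have hne' : A₀ ≠ V := by
          rintro rfl
          exact hV hA₀
        have hss : A₀ ⊂ V := lt_of_le_of_ne hA₀V hne'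
        have c1 : A₀.card < V.card := card_lt_card hss
        have c2 : (V \ A₀).card < V.card := by
          rw [card_sdiff_of_subset hA₀V]
          have := hA₀n.card_pos
          omega
        have key : ∀ A ∈ 𝒜, ¬ A ⊆ A₀ → A ⊆ V \ A₀ := by
          intro A hA hn
          rcases hlam A hA A₀ hA₀ with h | h | h
          · exact absurd h hn
          · exfalso
            have h1 := hmax A hA
            exact hn (eq_of_subset_of_card_le h h1).ge
          · intro a ha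
            rw [mem_sdiff]
            exact ⟨hsub A hA ha, fun h' => disjoint_left.mp h ha h'⟩
        have f1 : (𝒜.filter (fun A => A ⊆ A₀)).card ≤ 𝒜.card := card_filter_le _ _
        have f2 : (𝒜.filter (fun A => ¬ A ⊆ A₀)).card ≤ 𝒜.card := card_filter_le _ _
        obtain ⟨m₁, r₁, a₁, hr₁⟩ := ih A₀ (𝒜.filter (fun A => A ⊆ A₀)) (by omega)
          (fun A hA => (mem_filter.mp hA).2) (fun A hA => hnon A (mem_filter.mp hA).1)
          (fun A hA B hB => hlam A (mem_filter.mp hA).1 B (mem_filter.mp hB).1)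
        obtain ⟨m₂, r₂, a₂, hr₂⟩ := ih (V \ A₀) (𝒜.filter (fun A => ¬ A ⊆ A₀)) (by omega)
          (fun A hA => key A (mem_filter.mp hA).1 (mem_filter.mp hA).2)
          (fun A hA => hnon A (mem_filter.mp hA).1)
          (fun A hA B hB => hlam A (mem_filter.mp hA).1 B (mem_filter.mp hB).1)
        have hd : Disjoint A₀ (V \ A₀) := disjoint_sdiff
        have hU : A₀ ∪ (V \ A₀) = V := union_sdiff_of_subset hA₀V
        have hrb := rb_sum (𝒜 := 𝒜) hd (fun A hA => (mem_filter.mp hA).2)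
          (fun A hA => key A (mem_filter.mp hA).1 (mem_filter.mp hA).2)
          (fun X => by
            rw [mem_filter, mem_filter]
            tauto) hr₁ hr₂
        rw [hU] at hrb
        exact ⟨_, _, _, hrb⟩
      · rw [not_nonempty_iff_eq_empty] at hne
        subst hne
        exact ⟨_, _, _, rb_free V l u⟩

end Pool.Agent.Lib.MP_16c009_co_lam2
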