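import Mathlib
import Pool.Agent.Lib.MP_16c009_co_lam2.Laminar

set_option autoImplicit false
set_option linter.unusedSectionVars false

namespace Pool.Agent.Lib.MP_16c009_co_lam2

open Finset Function

variable {E : Type*} [Fintype E] [DecidableEq E]

theorem wt_eval (z z' y' : E → ℝ) (X Y : Finset E) (hz' : ∀ a, z' a = if a ∈ X then 0 else z a)
    (hy' : ∀ a, y' a = if a ∈ Y then 0 else 1) (A : Finset E) :
    wt univ z' y' A = if Y ⊆ A ∧ Disjoint X A then ∏ a ∈ A, z a else 0 := by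
  unfold wt
  by_cases h : Y ⊆ A ∧ Disjoint X A
  · rw [if_pos h]
    have h1 : ∏ a ∈ A, z' a = ∏ a ∈ A, z a := by
      refine prod_congr rfl fun a ha => ?_
      rw [hz', if_neg (fun hx => disjoint_left.mp h.2 hx ha)]
    have h2 : ∏ a ∈ univ \ A, y' a = 1 := by
      refine prod_eq_one fun a ha => ?_
      rw [mem_sdiff] at ha
      rw [hy', if_neg (fun hy => ha.2 (h.1 hy))]
    rw [h1, h2, mul_one]
  · rw [if_neg h]
    by_cases h1 : Y ⊆ A
    · have h2 : ¬ Disjoint X A := fun h2 => h ⟨h1, h2⟩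
      rw [not_disjoint_iff] at h2
      obtain ⟨a, ha, ha'⟩ := h2
      rw [prod_eq_zero ha' (by rw [hz', if_pos ha]), zero_mul]
    · rw [not_subset] at h1
      obtain ⟨a, ha, ha'⟩ := h1
      rw [prod_eq_zero (i := a) (s := univ \ A) (by simp [ha']) (by rw [hy', if_pos ha]),
        mul_zero]

/-- The final algebraic step. -/
theorem corr_of_four (p : Finset E → Prop) [DecidablePred p] (F : Finset E → ℝ) (e f : E)
    (h : (∑ A ∈ (univ : Finset (Finset E)).filter (fun A => p A ∧ e ∈ A ∧ f ∈ A), F A) *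
        (∑ A ∈ (univ : Finset (Finset E)).filter (fun A => p A ∧ e ∉ A ∧ f ∉ A), F A) ≤
        (∑ A ∈ (univ : Finset (Finset E)).filter (fun A => p A ∧ e ∈ A ∧ f ∉ A), F A) *
        (∑ A ∈ (univ : Finset (Finset E)).filter (fun A => p A ∧ e ∉ A ∧ f ∈ A), F A)) :
    (∑ A ∈ (univ : Finset (Finset E)).filter (fun A => p A ∧ e ∈ A), F A) *
        (∑ A ∈ (univ : Finset (Finset E)).filter (fun A => p A ∧ f ∈ A), F A) ≥
      (∑ A ∈ (univ : Finset (Finset E)).filter (fun A => p A ∧ e ∈ A ∧ f ∈ A), F A) *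
        (∑ A ∈ (univ : Finset (Finset E)).filter (fun A => p A), F A) := by
  have split : ∀ (q : Finset E → Prop) [DecidablePred q] (x : E),
      ∑ A ∈ (univ : Finset (Finset E)).filter (fun A => q A), F A =
        ∑ A ∈ (univ : Finset (Finset E)).filter (fun A => q A ∧ x ∈ A), F A +
        ∑ A ∈ (univ : Finset (Finset E)).filter (fun A => q A ∧ x ∉ A), F A := by
    intro q _ x
    rw [← sum_filter_add_sum_filter_not ((univ : Finset (Finset E)).filter (fun A => q A))
      (fun A => x ∈ A), filter_filter, filter_filter]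
  have s1 := split (fun A => p A ∧ e ∈ A) f
  have s2 := split (fun A => p A ∧ f ∈ A) e
  have s3 := split (fun A => p A) e
  have s4 := split (fun A => p A ∧ e ∉ A) f
  have t1 : (univ : Finset (Finset E)).filter (fun A => (p A ∧ e ∈ A) ∧ f ∈ A) =
      (univ : Finset (Finset E)).filter (fun A => p A ∧ e ∈ A ∧ f ∈ A) :=
    filter_congr fun A _ => by tauto
  have t2 : (univ : Finset (Finset E)).filter (fun A => (p A ∧ e ∈ A) ∧ f ∉ A) =
      (univ : Finset (Finset E)).filter (fun A => p A ∧ e ∈ A ∧ f ∉ A) :=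
    filter_congr fun A _ => by tauto
  have t3 : (univ : Finset (Finset E)).filter (fun A => (p A ∧ f ∈ A) ∧ e ∈ A) =
      (univ : Finset (Finset E)).filter (fun A => p A ∧ e ∈ A ∧ f ∈ A) :=
    filter_congr fun A _ => by tauto
  have t4 : (univ : Finset (Finset E)).filter (fun A => (p A ∧ f ∈ A) ∧ e ∉ A) =
      (univ : Finset (Finset E)).filter (fun A => p A ∧ e ∉ A ∧ f ∈ A) :=
    filter_congr fun A _ => by tauto
  have t5 : (univ : Finset (Finset E)).filter (fun A => (p A ∧ e ∉ A) ∧ f ∈ A) =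
      (univ : Finset (Finset E)).filter (fun A => p A ∧ e ∉ A ∧ f ∈ A) :=
    filter_congr fun A _ => by tauto
  have t6 : (univ : Finset (Finset E)).filter (fun A => (p A ∧ e ∉ A) ∧ f ∉ A) =
      (univ : Finset (Finset E)).filter (fun A => p A ∧ e ∉ A ∧ f ∉ A) :=
    filter_congr fun A _ => by tauto
  rw [t1, t2] at s1
  rw [t3, t4] at s2
  rw [t5, t6] at s4
  rw [s3, s4, s1, s2]
  nlinarith [h]

section Upd

variable (z : E → ℝ) (e f : E)

theorem upd_none (x : E → ℝ) : ∀ a, x a = if a ∈ (∅ : Finset E) then 0 else x a := by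
  intro a
  simp

theorem upd_one (x : E → ℝ) : ∀ a, update x e 0 a = if a ∈ ({e} : Finset E) then 0 else x a := by
  intro a
  by_cases h : a = e
  · subst h
    simp
  · simp [h]

theorem upd_two (x : E → ℝ) :
    ∀ a, update (update x e 0) f 0 a = if a ∈ ({e, f} : Finset E) then 0 else x a := by
  intro a
  by_cases h : a = f
  · subst h
    simp
  · by_cases h' : a = e
    · subst h'
      simp [h]
    · simp [h, h']

end Upd

theorem sets_two (e f : E) (A : Finset E) :
    (({e, f} : Finset E) ⊆ A ∧ Disjoint (∅ : Finset E) A) ↔ (e ∈ A ∧ f ∈ A) := by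
  simp [insert_subset_iff]

theorem sets_none (e f : E) (A : Finset E) :
    ((∅ : Finset E) ⊆ A ∧ Disjoint ({e, f} : Finset E) A) ↔ (e ∉ A ∧ f ∉ A) := by
  simp [disjoint_insert_left]

theorem sets_left (e f : E) (A : Finset E) :
    (({e} : Finset E) ⊆ A ∧ Disjoint ({f} : Finset E) A) ↔ (e ∈ A ∧ f ∉ A) := by
  simp

/-- The four-term inequality for a predicate computed by a block. -/
theorem four_of_blk {Φ : (E → ℝ) → (E → ℝ) → (ℕ → ℝ) → ℝ}
    (hB : Blk (univ : Finset E) Φ) (W : ℕ → ℝ) (hW : Wt W) (p : Finset E → Prop)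
    [DecidablePred p]
    (hΦ : ∀ z y : E → ℝ, Φ z y W = ∑ A ∈ (univ : Finset (Finset E)).filter p, wt univ z y A)
    (z : E → ℝ) (hz : ∀ a, 0 < z a) (e f : E) (hef : e ≠ f) :
    (∑ A ∈ (univ : Finset (Finset E)).filter (fun A => p A ∧ e ∈ A ∧ f ∈ A), ∏ a ∈ A, z a) *
        (∑ A ∈ (univ : Finset (Finset E)).filter (fun A => p A ∧ e ∉ A ∧ f ∉ A), ∏ a ∈ A, z a) ≤
      (∑ A ∈ (univ : Finset (Finset E)).filter (fun A => p A ∧ e ∈ A ∧ f ∉ A), ∏ a ∈ A, z a) *
        (∑ A ∈ (univ : Finset (Finset E)).filter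
          (fun A => p A ∧ e ∉ A ∧ f ∈ A), ∏ a ∈ A, z a) := by
  have key : ∀ (z' y' : E → ℝ) (X Y : Finset E), (∀ a, z' a = if a ∈ X then 0 else z a) →
      (∀ a, y' a = if a ∈ Y then 0 else 1) → ∀ (q : Finset E → Prop) [DecidablePred q],
      (∀ A, (Y ⊆ A ∧ Disjoint X A) ↔ q A) →
      Φ z' y' W = ∑ A ∈ (univ : Finset (Finset E)).filter (fun A => p A ∧ q A), ∏ a ∈ A, z a := by
    intro z' y' X Y hz' hy' q _ hq
    rw [hΦ, ← filter_filter, sum_filter q]
    refine sum_congr rfl fun A _ => ?_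
    rw [wt_eval z z' y' X Y hz' hy' A]
    by_cases h : q A
    · rw [if_pos h, if_pos ((hq A).mpr h)]
    · rw [if_neg h, if_neg (fun h' => h ((hq A).mp h'))]
  have h11 := key z (update (update (fun _ => 1) e 0) f 0) ∅ {e, f} (upd_none z)
    (upd_two e f (fun _ => 1)) (fun A => e ∈ A ∧ f ∈ A) (sets_two e f)
  have h00 := key (update (update z e 0) f 0) (fun _ => 1) {e, f} ∅ (upd_two e f z)
    (upd_none (fun _ => 1)) (fun A => e ∉ A ∧ f ∉ A) (sets_none e f)
  have h10 := key (update z f 0) (update (fun _ => 1) e 0) {f} {e} (upd_one f z)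
    (upd_one e (fun _ => 1)) (fun A => e ∈ A ∧ f ∉ A) (sets_left e f)
  have h01 := key (update z e 0) (update (fun _ => 1) f 0) {e} {f} (upd_one e z)
    (upd_one f (fun _ => 1)) (fun A => e ∉ A ∧ f ∈ A)
    (fun A => (sets_left f e A).trans and_comm)
  have := hB.corr z (fun _ => 1) (fun a => (hz a).le) (fun _ => zero_le_one) e (mem_univ e) f
    (mem_univ f) hef W hW
  unfold Corr at this
  rw [h11, h00, h10, h01] at this
  exact this

theorem wt_step (ρ : ℕ) : Wt (fun k => if ρ ≤ k then 1 else 0) := by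
  intro d
  refine ⟨?_, ?_, ⟨?_, ?_⟩, ?_⟩
  · intro n
    dsimp only
    split_ifs <;> norm_num
  · intro n
    dsimp only
    split_ifs <;> norm_num
  · intro m n hmn
    dsimp only
    split_ifs <;> first | omega | norm_num
  · intro m n hmn
    dsimp only
    split_ifs <;> first | omega | norm_num
  · intro m n hmn
    dsimp only
    split_ifs <;> first | omega | norm_num

open Classical in
theorem spanning_four (M : Matroid E) (hE : M.E = Set.univ)
    (𝒜 : Finset (Finset E)) (h𝒜 : ∀ A ∈ 𝒜, ∀ B ∈ 𝒜, A ⊆ B ∨ B ⊆ A ∨ Disjoint A B)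
    (l u : Finset E → ℕ) (ρ : ℕ)
    (hM : ∀ B : Finset E, M.IsBase (B : Set E) ↔ B.card = ρ ∧
      ∀ A ∈ 𝒜, l A ≤ (B ∩ A).card ∧ (B ∩ A).card ≤ u A)
    (z : E → ℝ) (hz : ∀ a, 0 < z a) (e f : E) (hef : e ≠ f) :
    (∑ A ∈ (univ : Finset (Finset E)).filter
        (fun A : Finset E => M.Spanning (A : Set E) ∧ e ∈ A ∧ f ∈ A), ∏ a ∈ A, z a) *
      (∑ A ∈ (univ : Finset (Finset E)).filter
        (fun A : Finset E => M.Spanning (A : Set E) ∧ e ∉ A ∧ f ∉ A), ∏ a ∈ A, z a) ≤
    (∑ A ∈ (univ : Finset (Finset E)).filter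
        (fun A : Finset E => M.Spanning (A : Set E) ∧ e ∈ A ∧ f ∉ A), ∏ a ∈ A, z a) *
      (∑ A ∈ (univ : Finset (Finset E)).filter
        (fun A : Finset E => M.Spanning (A : Set E) ∧ e ∉ A ∧ f ∈ A), ∏ a ∈ A, z a) := by
  obtain ⟨B₀s, hB₀s⟩ := M.exists_isBase
  obtain ⟨B₀, rfl⟩ : ∃ B' : Finset E, (B' : Set E) = B₀s :=
    ⟨(Set.toFinite B₀s).toFinset, (Set.toFinite B₀s).coe_toFinset⟩
  obtain ⟨hB₀c, hB₀v⟩ := (hM B₀).mp hB₀s
  have hM' : ∀ B : Finset E, M.IsBase (B : Set E) ↔ B.card = ρ ∧ Valid (𝒜.erase ∅) l u B := by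
    intro B
    rw [hM B]
    refine and_congr_right fun _ => ⟨fun h X hX => h X (mem_of_mem_erase hX), fun h X hX => ?_⟩
    by_cases hX0 : X = ∅
    · subst hX0
      have := hB₀v ∅ hX
      simp only [inter_empty, card_empty] at this ⊢
      exact this
    · exact h X (mem_erase.mpr ⟨hX0, hX⟩)
  obtain ⟨m, r, alive, hr⟩ := exists_rb l u _ (univ : Finset E) (𝒜.erase ∅) le_rfl
    (fun A _ => subset_univ A)
    (fun A hA => nonempty_iff_ne_empty.mpr (ne_of_mem_erase hA))
    (fun A hA B hB => h𝒜 A (mem_of_mem_erase hA) B (mem_of_mem_erase hB))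
  have hm : m ≤ ρ := by
    have := (hr.val univ (subset_univ _) ρ).mp
      ⟨B₀, subset_univ _, ((hM' B₀).mp hB₀s).2, hB₀c⟩
    exact this.2.1
  have hspan : ∀ A : Finset E, M.Spanning (A : Set E) ↔ (alive A ∧ ρ ≤ r A) := by
    intro A
    have hAE : (A : Set E) ⊆ M.E := by
      rw [hE]
      exact Set.subset_univ _
    rw [M.spanning_iff_exists_isBase_subset hAE]
    have h1 := hr.val A (subset_univ _) ρ
    constructor
    · rintro ⟨B, hB, hBA⟩
      obtain ⟨B', rfl⟩ : ∃ B' : Finset E, (B' : Set E) = B :=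
        ⟨(Set.toFinite B).toFinset, (Set.toFinite B).coe_toFinset⟩
      have h2 := (hM' B').mp hB
      have h3 := h1.mp ⟨B', by exact_mod_cast hBA, h2.2, h2.1⟩
      exact ⟨h3.1, h3.2.2⟩
    · rintro ⟨h2, h3⟩
      obtain ⟨B, hBA, hv, hc⟩ := h1.mpr ⟨h2, hm, h3⟩
      exact ⟨B, (hM' B).mpr ⟨hc, hv⟩, by exact_mod_cast hBA⟩
  refine four_of_blk hr.blk _ (wt_step ρ) (fun A : Finset E => M.Spanning (A : Set E)) ?_
    z hz e f hef
  intro z y
  unfold Phi
  rw [powerset_univ, sum_filter]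
  refine sum_congr rfl fun A _ => ?_
  beta_reduce
  by_cases h1 : alive A
  · by_cases h2 : ρ ≤ r A
    · rw [if_pos h1, if_pos h2, if_pos ((hspan A).mpr ⟨h1, h2⟩), mul_one]
    · rw [if_pos h1, if_neg h2, if_neg (fun h => h2 ((hspan A).mp h).2), mul_zero]
  · rw [if_neg h1, if_neg (fun h => h1 ((hspan A).mp h).1)]

/-- Passing to complements. -/
theorem sum_compl (z : E → ℝ) (hz : ∀ a, 0 < z a) (p q : Finset E → Prop) [DecidablePred p]
    [DecidablePred q]
    (hpq : ∀ A, p A ↔ q Aᶜ) :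
    ∑ A ∈ (univ : Finset (Finset E)).filter p, ∏ a ∈ A, z a =
      (∏ a, z a) * ∑ A ∈ (univ : Finset (Finset E)).filter q, ∏ a ∈ A, (z a)⁻¹ := by
  rw [mul_sum]
  refine sum_nbij' (fun A => Aᶜ) (fun A => Aᶜ) ?_ ?_ ?_ ?_ ?_
  · intro A hA
    rw [mem_filter] at hA ⊢
    exact ⟨mem_univ _, (hpq A).mp hA.2⟩
  · intro A hA
    rw [mem_filter] at hA ⊢
    refine ⟨mem_univ _, (hpq _).mpr ?_⟩
    rw [compl_compl]
    exact hA.2
  · intro A _
    exact compl_compl A
  · intro A _
    exact compl_compl A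
  · intro A _
    rw [← prod_mul_prod_compl A z, prod_inv_distrib, mul_assoc, mul_inv_cancel₀, mul_one]
    exact prod_ne_zero_iff.mpr fun a _ => (hz a).ne'

open Classical in
theorem two_sided_correlated (M : Matroid E) (hE : M.E = Set.univ)
    (𝒜 : Finset (Finset E)) (h𝒜 : ∀ A ∈ 𝒜, ∀ B ∈ 𝒜, A ⊆ B ∨ B ⊆ A ∨ Disjoint A B)
    (l u : Finset E → ℕ) (ρ : ℕ)
    (hM : ∀ B : Finset E, M.IsBase (B : Set E) ↔ B.card = ρ ∧
      ∀ A ∈ 𝒜, l A ≤ (B ∩ A).card ∧ (B ∩ A).card ≤ u A)
    (z : E → ℝ) (hz : ∀ a, 0 < z a) (e f : E) (hef : e ≠ f) :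
    ((∑ A ∈ (univ : Finset (Finset E)).filter
          (fun A : Finset E => M.Indep (A : Set E) ∧ e ∈ A), ∏ a ∈ A, z a) *
      (∑ A ∈ (univ : Finset (Finset E)).filter
          (fun A : Finset E => M.Indep (A : Set E) ∧ f ∈ A), ∏ a ∈ A, z a) ≥
      (∑ A ∈ (univ : Finset (Finset E)).filter
          (fun A : Finset E => M.Indep (A : Set E) ∧ e ∈ A ∧ f ∈ A), ∏ a ∈ A, z a) *
      (∑ A ∈ (univ : Finset (Finset E)).filter
          (fun A : Finset E => M.Indep (A : Set E)), ∏ a ∈ A, z a)) ∧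
    ((∑ A ∈ (univ : Finset (Finset E)).filter
          (fun A : Finset E => M.Spanning (A : Set E) ∧ e ∈ A), ∏ a ∈ A, z a) *
      (∑ A ∈ (univ : Finset (Finset E)).filter
          (fun A : Finset E => M.Spanning (A : Set E) ∧ f ∈ A), ∏ a ∈ A, z a) ≥
      (∑ A ∈ (univ : Finset (Finset E)).filter
          (fun A : Finset E => M.Spanning (A : Set E) ∧ e ∈ A ∧ f ∈ A), ∏ a ∈ A, z a) *
      (∑ A ∈ (univ : Finset (Finset E)).filter
          (fun A : Finset E => M.Spanning (A : Set E)), ∏ a ∈ A, z a)) := by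
  refine ⟨?_, ?_⟩
  · obtain ⟨B₀s, hB₀s⟩ := M.exists_isBase
    obtain ⟨B₀, rfl⟩ : ∃ B' : Finset E, (B' : Set E) = B₀s :=
      ⟨(Set.toFinite B₀s).toFinset, (Set.toFinite B₀s).coe_toFinset⟩
    obtain ⟨hB₀c, hB₀v⟩ := (hM B₀).mp hB₀s
    have hρ : ρ ≤ Fintype.card E := by
      rw [← hB₀c]
      exact card_le_univ B₀
    have hl : ∀ A ∈ 𝒜, l A ≤ A.card := fun A hA =>
      ((hB₀v A hA).1).trans (card_le_card inter_subset_right)
    have hcompl : ∀ A : Finset E, M.E \ (A : Set E) = ((Aᶜ : Finset E) : Set E) := by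
      intro A
      rw [hE, coe_compl, Set.compl_eq_univ_sdiff]
    have hMd : ∀ B : Finset E, M✶.IsBase (B : Set E) ↔ B.card = Fintype.card E - ρ ∧
        ∀ A ∈ 𝒜, A.card - u A ≤ (B ∩ A).card ∧ (B ∩ A).card ≤ A.card - l A := by
      intro B
      have hBE : (B : Set E) ⊆ M.E := by
        rw [hE]
        exact Set.subset_univ _
      rw [M.dual_isBase_iff hBE, hcompl B, hM]
      have c1 : (Bᶜ).card = Fintype.card E - B.card := card_compl B
      have c2 : B.card ≤ Fintype.card E := card_le_univ B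
      have c3 : ∀ A : Finset E, (Bᶜ ∩ A).card + (B ∩ A).card = A.card := by
        intro A
        rw [← card_union_of_disjoint]
        · congr 1
          ext a
          simp only [mem_union, mem_inter, mem_compl]
          tauto
        · rw [disjoint_left]
          intro a h1 h2
          rw [mem_inter, mem_compl] at h1
          exact h1.1 (mem_inter.mp h2).1
      constructor
      · rintro ⟨h1, h2⟩
        refine ⟨by omega, fun A hA => ?_⟩
        have := h2 A hA
        have := c3 A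
        omega
      · rintro ⟨h1, h2⟩
        refine ⟨by omega, fun A hA => ?_⟩
        have := h2 A hA
        have := c3 A
        have := hl A hA
        omega
    have hind : ∀ A : Finset E, M.Indep (A : Set E) ↔ M✶.Spanning ((Aᶜ : Finset E) : Set E) := by
      intro A
      have hAE : (A : Set E) ⊆ M✶.E := by
        rw [Matroid.dual_ground, hE]
        exact Set.subset_univ _
      rw [← Matroid.dual_coindep_iff, Matroid.coindep_iff_compl_spanning hAE,
        Matroid.dual_ground, hcompl]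
    have four := spanning_four M✶ (by rw [Matroid.dual_ground, hE]) 𝒜 h𝒜
      (fun A => A.card - u A) (fun A => A.card - l A) _ hMd (fun a => (z a)⁻¹)
      (fun a => inv_pos.mpr (hz a)) e f hef
    refine corr_of_four (fun A : Finset E => M.Indep (A : Set E)) _ e f ?_
    have hZ : 0 < ∏ a, z a := prod_pos fun a _ => hz a
    rw [sum_compl z hz (fun A : Finset E => M.Indep (A : Set E) ∧ e ∈ A ∧ f ∈ A)
        (fun A : Finset E => M✶.Spanning (A : Set E) ∧ e ∉ A ∧ f ∉ A) (fun A => by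
          rw [hind A, mem_compl, mem_compl, not_not, not_not]),
      sum_compl z hz (fun A : Finset E => M.Indep (A : Set E) ∧ e ∉ A ∧ f ∉ A)
        (fun A : Finset E => M✶.Spanning (A : Set E) ∧ e ∈ A ∧ f ∈ A) (fun A => by
          rw [hind A, mem_compl, mem_compl]),
      sum_compl z hz (fun A : Finset E => M.Indep (A : Set E) ∧ e ∈ A ∧ f ∉ A)
        (fun A : Finset E => M✶.Spanning (A : Set E) ∧ e ∉ A ∧ f ∈ A) (fun A => by
          rw [hind A, mem_compl, mem_compl, not_not]),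
      sum_compl z hz (fun A : Finset E => M.Indep (A : Set E) ∧ e ∉ A ∧ f ∈ A)
        (fun A : Finset E => M✶.Spanning (A : Set E) ∧ e ∈ A ∧ f ∉ A) (fun A => by
          rw [hind A, mem_compl, mem_compl, not_not])]
    have := mul_le_mul_of_nonneg_left four (mul_pos hZ hZ).le
    nlinarith [this]
  · exact corr_of_four (fun A : Finset E => M.Spanning (A : Set E)) _ e f
      (spanning_four M hE 𝒜 h𝒜 l u ρ hM z hz e f hef)

end Pool.Agent.Lib.MP_16c009_co_lam2
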